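import Pool.Agent.W890.SF.Stm2

/-!
# Project SAM, part R4: the asymptotic theorem
-/

set_option autoImplicit false

namespace Pool.Agent.W806.SAM

open Finset Filter Topology Pool.Agent.W890.SF

lemma xlt {k : ℕ} (hk : 2 ≤ k) {x : ℝ} (hx : 0 < x) (hkx : k * x < 1) : x < 1 := by
  have h1 : (2 : ℝ) ≤ k := by exact_mod_cast hk
  nlinarith

lemma fl {x : ℝ} (hx : x < 1) (n : ℕ) : ⌊x * (n : ℝ)⌋₊ ≤ n := by
  apply Nat.floor_le_of_le
  have h1 : (0 : ℝ) ≤ n := Nat.cast_nonneg n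
  nlinarith

theorem upper (h1 : S_ASY) (h2 : S_LOW) (k : ℕ) (hk : 2 ≤ k) (x : ℝ) (hx : 0 < x)
    (hkx : k * x < 1) (ε : ℝ) (hε : 0 < ε) : ∀ᶠ n : ℕ in atTop,
    (mm n k ⌊x * (n : ℝ)⌋₊ : ℝ) / ((n.choose k : ℕ) : ℝ) ≤
      max (1 - (1 - x) ^ k) (x / (1 - (k - 1) * x)) + ε := by
  have hx1 := xlt hk hx hkx
  obtain ⟨n0, hn0⟩ := h1 k hk x hx hkx ε hε
  filter_upwards [eventually_ge_atTop n0, eventually_ge_atTop k] with n hn hnk
  have hC : 0 < n.choose k := Nat.choose_pos hnk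
  have hC' : (0 : ℝ) < ((n.choose k : ℕ) : ℝ) := by exact_mod_cast hC
  set Φ : ℝ := max (1 - (1 - x) ^ k) (x / (1 - (k - 1) * x)) with hΦ
  have hp : (1 - x) ^ k ≤ 1 := pow_le_one₀ (by linarith) (by linarith)
  have hΦ0 : 0 ≤ Φ := le_max_of_le_left (by linarith)
  have h3 := (h2 n k ⌊x * (n : ℝ)⌋₊ (by omega) (fl hx1 n)).2.2
    ⌊(Φ + ε) * ((n.choose k : ℕ) : ℝ)⌋₊ (fun F hF hlt => hn0 n hn F hF (by
      have h4 := Nat.lt_of_floor_lt hlt
      exact h4.le))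
  rw [div_le_iff₀ hC']
  calc (mm n k ⌊x * (n : ℝ)⌋₊ : ℝ) ≤ (⌊(Φ + ε) * ((n.choose k : ℕ) : ℝ)⌋₊ : ℝ) := by
        exact_mod_cast h3
    _ ≤ (Φ + ε) * ((n.choose k : ℕ) : ℝ) := Nat.floor_le (by positivity)

theorem r4 (h1 : S_ASY) (h2 : S_LOW) (h3 : S_LIM) : S_R4 := by
  intro k hk x hx hkx
  refine ⟨fun hle => ?_, fun ε hε => upper h1 h2 k hk x hx hkx ε hε⟩
  have hx1 := xlt hk hx hkx
  have hk2 : (2 : ℝ) ≤ k := by exact_mod_cast hk
  have hden : 0 < 1 - ((k : ℝ) - 1) * x := by nlinarith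
  have hΦ : max (1 - (1 - x) ^ k) (x / (1 - ((k : ℝ) - 1) * x)) = 1 - (1 - x) ^ k := by
    apply max_eq_left
    have e1 : x / (1 - ((k : ℝ) - 1) * x) = 1 - (1 - k * x) / (1 - ((k : ℝ) - 1) * x) := by
      rw [eq_sub_iff_add_eq, ← add_div, div_eq_one_iff_eq hden.ne']
      ring
    rw [e1]
    linarith
  obtain ⟨l1, l2⟩ := h3 k (by omega) x hx hx1.le
  have l2' := l2 hkx
  -- the limit
  have hlim : Tendsto (fun n : ℕ => (mm n k ⌊x * (n : ℝ)⌋₊ : ℝ) / ((n.choose k : ℕ) : ℝ)) atTop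
      (𝓝 (1 - (1 - x) ^ k)) := by
    rw [tendsto_order]
    refine ⟨fun a ha => ?_, fun b hb => ?_⟩
    · have h4 := (tendsto_order.1 l1).1 a ha
      filter_upwards [h4, eventually_ge_atTop k] with n hn hnk
      refine hn.trans_le ?_
      have h5 := (h2 n k ⌊x * (n : ℝ)⌋₊ (by omega) (fl hx1 n)).1
      exact div_le_div_of_nonneg_right (by exact_mod_cast h5) (Nat.cast_nonneg _)
    · have h4 := upper h1 h2 k hk x hx hkx ((b - (1 - (1 - x) ^ k)) / 2) (by linarith)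
      filter_upwards [h4] with n hn
      rw [hΦ] at hn
      refine hn.trans_lt ?_
      linarith
  -- the second lower bound
  have hsec : ((k : ℝ) * x) ^ k ≤ 1 - (1 - x) ^ k := by
    refine le_of_tendsto_of_tendsto l2' hlim ?_
    have h4 : ∀ᶠ n : ℕ in atTop, (k : ℝ) / (1 - k * x) ≤ n :=
      (tendsto_natCast_atTop_atTop (R := ℝ)).eventually_ge_atTop _
    filter_upwards [h4] with n hn
    have h5 : (0 : ℝ) < 1 - k * x := by linarith
    rw [div_le_iff₀ h5] at hn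
    have h6 : k * (⌊x * (n : ℝ)⌋₊ + 1) - 1 ≤ n := by
      have h7 : ((⌊x * (n : ℝ)⌋₊ : ℕ) : ℝ) ≤ x * n := Nat.floor_le (by positivity)
      have h8 : ((k * (⌊x * (n : ℝ)⌋₊ + 1) : ℕ) : ℝ) ≤ n := by
        push_cast
        nlinarith
      have h9 : k * (⌊x * (n : ℝ)⌋₊ + 1) ≤ n := by exact_mod_cast h8
      omega
    have h10 := (h2 n k ⌊x * (n : ℝ)⌋₊ (by omega) (fl hx1 n)).2.1 h6
    exact div_le_div_of_nonneg_right (by exact_mod_cast h10) (Nat.cast_nonneg _)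
  rw [max_eq_left hsec]
  exact hlim

end Pool.Agent.W806.SAM
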